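import Pool.Agent.H13.Scr.Main

/-!
# MP_655ac3_an: a disproof

There is a countable amenable group `G` (a lamplighter group, realised by homeomorphisms of
`2^ℕ × {0,1}`) such that a dense open set of its actions on `C(2^ℕ)`, both by linear isometries and
by positive linear isometries, admits no `G`-invariant strictly convex renorming.
-/

set_option autoImplicit false

namespace Pool.Agent.Results.MP_655ac3_an.AmenableNoRenorming

open Pool.Agent.H13.Scr

/-- For some countable amenable group `G`, in each of the two spaces of actions the actions without
`G`-invariant strictly convex renorming contain a dense open set, and the actions admitting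
one are not comeager. -/
theorem result : ∃ (G : Type) (_ : Group G), Countable G ∧ Amenable G ∧
    (∃ U : Set (Act G), IsOpen U ∧ Dense U ∧ ∀ α ∈ U, ¬ Renormable α) ∧
    (∃ U : Set (positive G), IsOpen U ∧ Dense U ∧ ∀ α ∈ U, ¬ Renormable α.1) ∧
    {α : Act G | Renormable α} ∉ residual (Act G) ∧
    {α : positive G | Renormable α.1} ∉ residual (positive G) :=
  main

end Pool.Agent.Results.MP_655ac3_an.AmenableNoRenorming
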